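import Pool.Agent.W188.QS.Stm5

/-! QS5-REM: transfer of error terms. -/

set_option autoImplicit false

open Complex MeasureTheory Set Filter Topology

namespace Pool.Agent.W108.QS

open Pool.Agent.W188.QS

theorem ksum : ∃ K0 : ℝ, 0 < K0 ∧ ∀ (S : Finset ℤ), ∑ n ∈ S, 1 / (1 + (n : ℝ) ^ 2) ≤ K0 := by
  have hs : Summable fun m : ℤ => 1 / (1 + (m : ℝ) ^ 2) := by
    have h1 : Summable fun m : ℤ => 1 / (m : ℝ) ^ 2 := Real.summable_one_div_int_pow.2 (by norm_num)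
    have h2 : Summable fun m : ℤ => if m = 0 then (1 : ℝ) else 0 :=
      summable_of_ne_finset_zero (s := {0}) fun m hm => if_neg (by simpa using hm)
    refine Summable.of_nonneg_of_le (fun m => by positivity) (fun m => ?_) (h1.add h2)
    by_cases hm : m = 0
    · subst hm
      simp
    · have hm' : (m : ℝ) ≠ 0 := by exact_mod_cast hm
      rw [if_neg hm, add_zero]
      have h3 : (0 : ℝ) < (m : ℝ) ^ 2 := by positivity
      exact one_div_le_one_div_of_le h3 (by linarith)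
  refine ⟨(∑' m : ℤ, 1 / (1 + (m : ℝ) ^ 2)) + 1, ?_, fun S => ?_⟩
  · have : 0 ≤ ∑' m : ℤ, 1 / (1 + (m : ℝ) ^ 2) := tsum_nonneg fun m => by positivity
    linarith
  · have h3 := hs.sum_le_tsum S (fun m _ => by positivity)
    linarith

theorem fin_Ioc (μ : Measure ℝ) (hμ : ∀ x : ℝ, μ (Iic x) < ⊤) (a b : ℝ) : μ (Ioc a b) < ⊤ :=
  lt_of_le_of_lt (measure_mono Ioc_subset_Iic_self) (hμ b)

theorem fin_Ioo (μ : Measure ℝ) (hμ : ∀ x : ℝ, μ (Iic x) < ⊤) (a b : ℝ) : μ (Ioo a b) < ⊤ :=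
  lt_of_le_of_lt (measure_mono (Ioo_subset_Ioc_self.trans Ioc_subset_Iic_self)) (hμ b)

theorem split_Ioc (μ : Measure ℝ) (hμ : ∀ x : ℝ, μ (Iic x) < ⊤) (x : ℝ) (hx : 0 ≤ x) :
    μ.real (Ioc 0 (x + 1)) = μ.real (Ioc 0 x) + μ.real (Ioc x (x + 1)) := by
  rw [← Ioc_union_Ioc_eq_Ioc hx (by linarith : x ≤ x + 1)]
  refine measureReal_union ?_ measurableSet_Ioc (fin_Ioc μ hμ _ _).ne (fin_Ioc μ hμ _ _).ne
  rw [Set.disjoint_left]
  intro t h1 h2
  linarith [h1.2, h2.1]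

/-- pointwise bound -/
theorem gg_le (T : ℝ) (N : ℕ) (t : ℝ) (h1 : T - N < t) (h2 : t ≤ T + N) :
    gg T 1 t ≤ ∑ m ∈ Finset.Ico (-(N : ℤ)) N,
      3 / (1 + (m : ℝ) ^ 2) * (Ioc (T + m) (T + m + 1)).indicator (fun _ => (1 : ℝ)) t := by
  set m0 : ℤ := ⌈t - T⌉ - 1 with hm0
  have h3 : (m0 : ℝ) < t - T := by
    have := Int.ceil_lt_add_one (t - T)
    rw [hm0]
    push_cast
    linarith
  have h4 : t - T ≤ (m0 : ℝ) + 1 := by
    have := Int.le_ceil (t - T)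
    rw [hm0]
    push_cast
    linarith
  have hmem : m0 ∈ Finset.Ico (-(N : ℤ)) N := by
    rw [Finset.mem_Ico]
    constructor
    · have h5 : (-(N : ℤ) : ℝ) < (m0 : ℝ) + 1 := by
        push_cast
        linarith
      have h6 : (-(N : ℤ)) < m0 + 1 := by exact_mod_cast h5
      omega
    · have h5 : (m0 : ℝ) < ((N : ℤ) : ℝ) := by
        push_cast
        linarith
      exact_mod_cast h5
  have hnn : ∀ m ∈ Finset.Ico (-(N : ℤ)) N, 0 ≤
      3 / (1 + (m : ℝ) ^ 2) * (Ioc (T + m) (T + m + 1)).indicator (fun _ => (1 : ℝ)) t := by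
    intro m _
    refine mul_nonneg (by positivity) (Set.indicator_nonneg (fun _ _ => zero_le_one) _)
  refine le_trans ?_ (Finset.single_le_sum hnn hmem)
  have hin : t ∈ Ioc (T + m0) (T + m0 + 1) := ⟨by linarith, by linarith⟩
  rw [Set.indicator_of_mem hin, mul_one]
  unfold gg
  rw [div_one, Real.exp_neg]
  set u := t - T with hu
  have h5 : 1 + u ^ 2 ≤ Real.exp (u ^ 2) := by
    have := Real.add_one_le_exp (u ^ 2)
    linarith
  have h6 : (Real.exp (u ^ 2))⁻¹ ≤ 1 / (1 + u ^ 2) := by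
    rw [← one_div]
    exact one_div_le_one_div_of_le (by positivity) h5
  refine h6.trans ?_
  rw [div_le_div_iff₀ (by positivity) (by positivity)]
  nlinarith [sq_nonneg (u - (m0 : ℝ)), sq_nonneg (u + (m0 : ℝ)), sq_nonneg (2 * u - (m0 : ℝ))]

theorem int_le (μ : Measure ℝ) (hμ : ∀ x : ℝ, μ (Iic x) < ⊤) (T D : ℝ) (hT : 4 ≤ T)
    (hD : 0 ≤ D) (hcell : ∀ x : ℝ, 1 ≤ x → x + 1 ≤ 2 * T → μ.real (Ioc x (x + 1)) ≤ D) (K0 : ℝ)
    (hK0 : ∀ (S : Finset ℤ), ∑ n ∈ S, 1 / (1 + (n : ℝ) ^ 2) ≤ K0) :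
    ∫ t in Ioo (T / 2) (3 * T / 2), gg T 1 t ∂μ ≤ 3 * K0 * D := by
  set N : ℕ := ⌈T / 2⌉₊ with hN
  have hN1 : T / 2 ≤ N := Nat.le_ceil _
  have hN2 : (N : ℝ) < T / 2 + 1 := Nat.ceil_lt_add_one (by linarith)
  have hfin : IsFiniteMeasure (μ.restrict (Ioo (T / 2) (3 * T / 2))) :=
    ⟨by rw [Measure.restrict_apply_univ]; exact fin_Ioo μ hμ _ _⟩
  set ν := μ.restrict (Ioo (T / 2) (3 * T / 2)) with hν
  have hggc : Continuous (gg T 1) := by
    unfold gg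
    fun_prop
  have hi1 : Integrable (gg T 1) ν := by
    refine Integrable.of_bound hggc.aestronglyMeasurable 1 (Eventually.of_forall fun t => ?_)
    unfold gg
    rw [Real.norm_eq_abs, abs_of_pos (Real.exp_pos _), Real.exp_le_one_iff]
    have := sq_nonneg ((t - T) / 1)
    linarith
  have hi2 : ∀ m ∈ Finset.Ico (-(N : ℤ)) N, Integrable (fun t =>
      3 / (1 + (m : ℝ) ^ 2) * (Ioc (T + m) (T + m + 1)).indicator (fun _ => (1 : ℝ)) t) ν := by
    intro m _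
    exact ((integrable_const (1 : ℝ)).indicator measurableSet_Ioc).const_mul _
  calc ∫ t, gg T 1 t ∂ν ≤ ∫ t, ∑ m ∈ Finset.Ico (-(N : ℤ)) N,
        3 / (1 + (m : ℝ) ^ 2) * (Ioc (T + m) (T + m + 1)).indicator (fun _ => (1 : ℝ)) t ∂ν := by
        refine integral_mono_ae hi1 (integrable_finsetSum _ hi2) ?_
        filter_upwards [ae_restrict_mem measurableSet_Ioo] with t ht
        exact gg_le T N t (by linarith [ht.1]) (by linarith [ht.2])
    _ = ∑ m ∈ Finset.Ico (-(N : ℤ)) N, 3 / (1 + (m : ℝ) ^ 2) * ν.real (Ioc (T + m) (T + m + 1)) := by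
        rw [integral_finsetSum _ hi2]
        refine Finset.sum_congr rfl fun m _ => ?_
        rw [integral_const_mul]
        congr 1
        exact integral_indicator_one measurableSet_Ioc
    _ ≤ ∑ m ∈ Finset.Ico (-(N : ℤ)) N, 3 / (1 + (m : ℝ) ^ 2) * D := by
        refine Finset.sum_le_sum fun m hm => mul_le_mul_of_nonneg_left ?_ (by positivity)
        rw [Finset.mem_Ico] at hm
        have e1 : (-(N : ℝ)) ≤ (m : ℝ) := by exact_mod_cast hm.1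
        have e2 : (m : ℝ) + 1 ≤ (N : ℝ) := by exact_mod_cast hm.2
        have e3 : ν.real (Ioc (T + m) (T + m + 1)) ≤ μ.real (Ioc (T + m) (T + m + 1)) :=
          ENNReal.toReal_mono (fin_Ioc μ hμ _ _).ne (Measure.restrict_le_self _)
        exact e3.trans (hcell (T + m) (by linarith) (by linarith))
    _ = 3 * D * ∑ m ∈ Finset.Ico (-(N : ℤ)) N, 1 / (1 + (m : ℝ) ^ 2) := by
        rw [Finset.mul_sum]
        refine Finset.sum_congr rfl fun m _ => ?_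
        ring
    _ ≤ 3 * D * K0 := mul_le_mul_of_nonneg_left (hK0 _) (by positivity)
    _ = 3 * K0 * D := by ring

theorem one_way (h : StSharp) (A : ℝ) (μ ν : Measure ℝ) (hμ : ∀ x : ℝ, μ (Iic x) < ⊤)
    (hν : ∀ x : ℝ, ν (Iic x) < ⊤) (hμ1 : μ (Iic 1) = 0) (hν1 : ν (Iic 1) = 0)
    (hμA : ∀ᶠ T : ℝ in atTop, μ.real (Ioc 0 T) ≤ T ^ A)
    (hνA : ∀ᶠ T : ℝ in atTop, ν.real (Ioc 0 T) ≤ T ^ A) (hE : Exact1 μ ν) (θ : ℝ) (R : ℝ → ℝ)
    (hθ : 0 ≤ θ) (hR : ∀ ε : ℝ, 0 < ε → ∃ B : ℝ, ∀ T s : ℝ, 1 ≤ T → 0 ≤ s → s ≤ 1 →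
      |R (T + s) - R T| ≤ B * T ^ (θ + ε))
    (hm : ∀ ε : ℝ, 0 < ε → ∃ B : ℝ, ∀ T : ℝ, 1 ≤ T → |μ.real (Ioc 0 T) - R T| ≤ B * T ^ (θ + ε)) :
    ∀ ε : ℝ, 0 < ε → ∃ B : ℝ, ∀ T : ℝ, 1 ≤ T → |ν.real (Ioc 0 T) - R T| ≤ B * T ^ (θ + ε) := by
  intro ε hε
  obtain ⟨B1, hB1⟩ := hR ε hε
  obtain ⟨B2, hB2⟩ := hm ε hε
  obtain ⟨K0, hK0, hks⟩ := ksum
  obtain ⟨C, T0, hC⟩ := h A μ ν hμ hν hμ1 hν1 hμA hνA hE
  set e : ℝ := θ + ε with he
  have he0 : 0 < e := by positivity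
  set B : ℝ := |B1| + |B2| with hB
  have hB0 : 0 ≤ B := by positivity
  have hB1' : B1 ≤ B := by
    have h1 := le_abs_self B1
    have h2 := abs_nonneg B2
    linarith
  have hB2' : B2 ≤ B := by
    have h1 := le_abs_self B2
    have h2 := abs_nonneg B1
    linarith
  have hpow1 : ∀ T : ℝ, 1 ≤ T → 1 ≤ T ^ e := fun T hT => Real.one_le_rpow hT he0.le
  have hcell : ∀ x : ℝ, 1 ≤ x → μ.real (Ioc x (x + 1)) ≤ 3 * B * (x + 1) ^ e := by
    intro x hx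
    have h1 := split_Ioc μ hμ x (by linarith)
    have h2 := (hB2 (x + 1) (by linarith)).trans
      (mul_le_mul_of_nonneg_right hB2' (Real.rpow_nonneg (by linarith) _))
    have h3 := (hB2 x hx).trans (mul_le_mul_of_nonneg_right hB2' (Real.rpow_nonneg (by linarith) _))
    have h4 := (hB1 x 1 hx zero_le_one le_rfl).trans
      (mul_le_mul_of_nonneg_right hB1' (Real.rpow_nonneg (by linarith) _))
    have h5 : B * x ^ e ≤ B * (x + 1) ^ e :=
      mul_le_mul_of_nonneg_left (Real.rpow_le_rpow (by linarith) (by linarith) he0.le) hB0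
    have h6 := abs_le.1 h2
    have h7 := abs_le.1 h3
    have h8 := abs_le.1 h4
    linarith [h6.2, h7.1, h8.2]
  have hint : ∀ T : ℝ, 4 ≤ T → ∫ t in Ioo (T / 2) (3 * T / 2), gg T 1 t ∂μ ≤
      9 * K0 * B * 2 ^ e * T ^ e := by
    intro T hT
    have h1 := int_le μ hμ T (3 * B * (2 * T) ^ e) hT (by positivity) (fun x hx hx2 => by
      refine (hcell x hx).trans ?_
      exact mul_le_mul_of_nonneg_left (Real.rpow_le_rpow (by linarith) hx2 he0.le) (by positivity))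
      K0 hks
    refine h1.trans (le_of_eq ?_)
    rw [Real.mul_rpow (by norm_num) (by linarith)]
    ring
  set T1 : ℝ := max T0 4 with hT1
  have hT14 : 4 ≤ T1 := le_max_right _ _
  set FF : ℝ := ν.real (Ioc 0 T1) + μ.real (Ioc 0 T1) with hFF
  have hFF0 : 0 ≤ FF := by positivity
  refine ⟨|C| * (1 + 9 * K0 * B * 2 ^ e) + B + FF, fun T hT => ?_⟩
  have hTe := hpow1 T hT
  have hμT : |μ.real (Ioc 0 T) - R T| ≤ B * T ^ e :=
    (hB2 T hT).trans (mul_le_mul_of_nonneg_right hB2' (Real.rpow_nonneg (by linarith) _))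
  have hq0 : 0 ≤ |C| * (1 + 9 * K0 * B * 2 ^ e) := by positivity
  rcases le_or_gt T1 T with h1 | h1
  · have h2 := hC T ((le_max_left _ _).trans h1)
    have h3 := hint T (hT14.trans h1)
    have hG0 : 0 ≤ ∫ t in Ioo (T / 2) (3 * T / 2), gg T 1 t ∂μ :=
      integral_nonneg fun t => (Real.exp_pos _).le
    have h4 : C * (1 + ∫ t in Ioo (T / 2) (3 * T / 2), gg T 1 t ∂μ) ≤
        |C| * (1 + 9 * K0 * B * 2 ^ e) * T ^ e := by
      calc C * (1 + ∫ t in Ioo (T / 2) (3 * T / 2), gg T 1 t ∂μ) ≤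
          |C| * (1 + ∫ t in Ioo (T / 2) (3 * T / 2), gg T 1 t ∂μ) :=
            mul_le_mul_of_nonneg_right (le_abs_self C) (by linarith)
        _ ≤ |C| * (T ^ e + 9 * K0 * B * 2 ^ e * T ^ e) :=
            mul_le_mul_of_nonneg_left (by linarith) (abs_nonneg C)
        _ = _ := by ring
    have h5 : |ν.real (Ioc 0 T) - R T| ≤
        |ν.real (Ioc 0 T) - μ.real (Ioc 0 T)| + |μ.real (Ioc 0 T) - R T| := abs_sub_le _ _ _
    have h6 : 0 ≤ FF * T ^ e := by positivity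
    nlinarith
  · have h2 : ν.real (Ioc 0 T) ≤ ν.real (Ioc 0 T1) :=
      measureReal_mono (Ioc_subset_Ioc_right h1.le) (fin_Ioc ν hν _ _).ne
    have h3 : μ.real (Ioc 0 T) ≤ μ.real (Ioc 0 T1) :=
      measureReal_mono (Ioc_subset_Ioc_right h1.le) (fin_Ioc μ hμ _ _).ne
    have h4 : (0 : ℝ) ≤ ν.real (Ioc 0 T) := measureReal_nonneg
    have h5 : (0 : ℝ) ≤ μ.real (Ioc 0 T) := measureReal_nonneg
    have h6 := abs_le.1 hμT
    have h7 : FF ≤ FF * T ^ e := by nlinarith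
    have h8 : 0 ≤ |C| * (1 + 9 * K0 * B * 2 ^ e) * T ^ e := by positivity
    rw [abs_le]
    constructor
    · linarith [h6.2, measureReal_nonneg (μ := ν) (s := Ioc 0 T1)]
    · linarith [h6.1, measureReal_nonneg (μ := μ) (s := Ioc 0 T1)]

theorem qs_rem (h : Pool.Agent.W188.QS.StSharp) : Pool.Agent.W188.QS.StRem := by
  intro A μ ν hμ hν hμ1 hν1 hμA hνA hE θ R hθ hR
  have hE' : Exact1 ν μ := by
    obtain ⟨C, T0, h1⟩ := hE
    refine ⟨C, T0, fun T hT => ?_⟩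
    rw [abs_sub_comm]
    exact h1 T hT
  exact ⟨fun hm => one_way h A μ ν hμ hν hμ1 hν1 hμA hνA hE θ R hθ hR hm,
    fun hm => one_way h A ν μ hν hμ hν1 hμ1 hνA hμA hE' θ R hθ hR hm⟩

end Pool.Agent.W108.QS
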